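import Pool.Agent.N76.RG.All2

set_option autoImplicit false

/-!
Beilinson's conjecture on regulators (Q1 for `i = 1`, `m = 0`, `n = 2`, curves over number fields): *independence over `ℝ` of
the regulators of almost all special points*, for every elliptic curve `z + 1/z = F(x)` over a number field.

Let `E` be the elliptic curve `z + 1/z = F(x)` over a number field `K`, where `F` is a monic quadratic polynomial with
integral coefficients and `F² - 4` has no multiple root. A point `b` is special of level `n` if `F(b) = η + 1/η` for a
root of unity `η` of order `n`. The symbols `{z, (x - b) / (x - b')}` of special points are unramified, so they are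
elements of the integral part of `H^2_M(E, ℚ(2))`. Since `{z, F(x) - F(b)}` is a torsion symbol, the two points `b` over one
special value `F(b)` give only one class. The theorem says that, apart from finitely many special values (those of level
less than `k₀`), this is the only linear relation over `ℝ` between the regulators: special points `b_0, ..., b_r` of any
levels `k_i ≥ k₀` with different values `F(b_i)` give `r + 1` classes whose regulators are linearly independent over `ℝ`,
over every number field `L` in which these points lie, and even at the places of `L` above any one embedding `σ` of `K`.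
(If `F` is a square, `F = (X + a/2)²`, the curve has the automorphism `x + a/2 ↦ i (x + a/2)`, `z ↦ -z`, which connects the
special values `v` and `-v`; in this case the values have to be different up to sign.)

The proof. (1) Arithmetic: let `F = (X + a/2)² + w`. By Loxton's theorem, in a form over the number field `K`, an algebraic
integer of `K(ζ)`, `ζ` any root of unity, with bounded conjugates is a sum of boundedly many products of a fixed number
and a root of unity. If `x - w` or `(x - w)(x' - w)` is a square in `K(ζ)` for special values `x`, `x'`, then we get a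
torsion point on one of finitely many subvarieties of tori; if the level of `x` is large, it lies on a coset of a subtorus
of positive dimension, and we obtain an identity between Laurent polynomials in one variable. The zeros of these show that
this is impossible for `w² ≠ 4` and `x ≠ ± x'`. So the points `b_i` generate different quadratic extensions of the field of
the roots of unity. (2) Artin's independence of characters, applied to the signs of `b_i + a/2` under the embeddings of
`L(ζ)`, separates the odd parts of the regulators. (3) For each `i` there is an embedding above `σ` which moves `F(b_i)`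
into a window in which the odd part of the regulator, a real analytic function of the angle of `η`, does not vanish
(subgroups of bounded index of the units mod `n` are uniformly distributed).

The case of the levels `p^k`, `p` a prime, by a different arithmetic argument without Loxton's theorem, is
`Pool/Agent/N76/RG/All.lean`.
-/

namespace Pool.Agent.Results.MP_15b3df_nt.AllSpecialPoints

open Polynomial

open Pool.Agent.TH826.MK (KQ symb Torus Unramified)

open Pool.Agent.TH826.HD (PRing POpen pent toP pcst isDomain_PRing)

open Pool.Agent.Y775.CC (SmoothPts)

/-- `x = η + 1/η` for a root of unity `η` of order `n`: `n` is the least positive number with `C_n(x) = 2`, where `C_n` is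
the polynomial with `C_n(η + 1/η) = η^n + 1/η^n`. -/
def SpecialValue {L : Type*} [Field L] (n : ℕ) (x : L) : Prop :=
  0 < n ∧ (Chebyshev.C L n).eval x = 2 ∧ ∀ m : ℕ, 0 < m → m < n → (Chebyshev.C L m).eval x ≠ 2

/-- In the function field `M` of the curve `z² - F(x) z + 1 = 0` the symbols `{z, (x - c_k) / (x - c_l)}` are unramified
at all discrete valuations, and the `n` symbols `{z, (x - c_i) / (x - c_0)}`, `1 ≤ i ≤ n`, are linearly independent over
`ℚ` in `K_2(M) ⊗ ℚ`. -/
def IndependentUnramified.{u, w} {L : Type u} [Field L] {n : ℕ} (F : L[X]) (c : Fin (n + 1) → L) : Prop :=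
  ∀ (M : Type w) [Field M] [Algebra (PRing F) M] [IsFractionRing (PRing F) M],
    ∃ f : POpen F c →+* M, (∀ a : PRing F, f (toP F c a) = algebraMap (PRing F) M a) ∧
      (∀ k l, KQ.map 2 f (symb (pent F c k l)) ∈ Unramified M 2) ∧
      LinearIndependent ℚ fun i : Fin n => KQ.map 2 f (symb (pent F c i.succ 0))

/-- There are `n` different embeddings `s_1, ..., s_n` of `L` in `ℂ` above the embedding `σ` of `K`, and for each `s_i` a
loop `Γ_i` of complex points of the curve over `s_i` which avoids the points over `c_0, ..., c_n`, such that the
determinant of the regulators of the `n` symbols `{z, (x - c_j) / (x - c_0)}`, `1 ≤ j ≤ n`, on the `n` loops `Γ_i` is not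
zero. -/
def IndependentRegulators {K L : Type*} [Field K] [Field L] [Algebra K L] (σ : K →+* ℂ) {n : ℕ} (F : L[X])
    (c : Fin (n + 1) → L) : Prop :=
  ∃ (s : Fin n → (L →+* ℂ)) (Γ : Fin n → Torus (POpen F c) 1),
    Function.Injective s ∧ (∀ i, (s i).comp (algebraMap K L) = σ) ∧
    (∀ i t (y : L), (Γ i).e t (pcst F c y) = s i y) ∧
    (Matrix.of fun i j : Fin n => (Γ i).reg (symb (pent F c j.succ 0))).det ≠ 0

/-- Let `K` be a number field and `F` a monic polynomial of degree `2` whose coefficients are algebraic integers of `K`
such that `F² - 4` is squarefree, so that `E : z + 1/z = F(x)` is an elliptic curve. There is a number `k₀` with the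
following property. Let `L` be any number field over `K` and let `b_0, ..., b_r ∈ L` be special points of levels
`k_i ≥ k₀`, that is, `F(b_i) = η_i + 1/η_i` with a root of unity `η_i` of order `k_i`, such that the values `F(b_i)` are
different; if `F` is a square (`a² = 4c` for `F = X² + a X + c`) assume moreover `F(b_i) ≠ -F(b_j)` for `i ≠ j`. The levels
are arbitrary and may be different. Then the coordinate ring of `E` over `L` is a domain, the complex points of `E` over
all embeddings of `L` are smooth, there is a second point `b' ∈ L`, `b' ≠ b_0`, over the value `F(b_0)`, and the `r + 1`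
symbols `{z, (x - b_i) / (x - b')}`, `0 ≤ i ≤ r`, are unramified at all discrete valuations of the function field `M` of
`E`, linearly independent over `ℚ` in `K_2(M) ⊗ ℚ`, and their regulators are linearly independent over `ℝ`: for every
embedding `σ` of `K` there are `r + 1` different embeddings of `L` above `σ` and for each one a loop of complex points
such that the determinant of the regulators of the `r + 1` symbols on the `r + 1` loops is not zero. -/
theorem result.{u, v, w} (K : Type u) [Field K] [NumberField K] (F : K[X])
    (hF1 : F.Monic) (hdeg : F.natDegree = 2) (hF : ∀ i, IsIntegral ℤ (F.coeff i))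
    (hsq : Squarefree (F ^ 2 - 4)) :
    ∃ k₀ : ℕ, ∀ (L : Type v) [Field L] [NumberField L] [Algebra K L] (r : ℕ) (b : Fin (r + 1) → L)
      (k : Fin (r + 1) → ℕ),
      (∀ i, k₀ ≤ k i ∧ SpecialValue (k i) ((F.map (algebraMap K L)).eval (b i))) →
      (∀ i j, i ≠ j → (F.map (algebraMap K L)).eval (b i) ≠ (F.map (algebraMap K L)).eval (b j) ∧
        (F.coeff 1 ^ 2 = 4 * F.coeff 0 →
          (F.map (algebraMap K L)).eval (b i) ≠ -(F.map (algebraMap K L)).eval (b j))) →
      IsDomain (PRing (F.map (algebraMap K L))) ∧
      (∀ s : L →+* ℂ, SmoothPts s (F.map (algebraMap K L))) ∧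
      ∃ b' : L, b' ≠ b 0 ∧ (F.map (algebraMap K L)).eval b' = (F.map (algebraMap K L)).eval (b 0) ∧
        IndependentUnramified.{v, w} (F.map (algebraMap K L)) (Fin.cons b' b : Fin (r + 1 + 1) → L) ∧
        ∀ σ : K →+* ℂ,
          IndependentRegulators σ (F.map (algebraMap K L)) (Fin.cons b' b : Fin (r + 1 + 1) → L) := by
  classical
  choose k₀ hk₀ using fun σ : K →+* ℂ => Pool.Agent.N76.RG.strong_gen.{u, v, w} Pool.Agent.N76.RG.t_nsqg
    Pool.Agent.N76.RG.t_spg Pool.Agent.N76.RG.win Pool.Agent.N76.RG.det_ K F hF1 hdeg hF hsq σ
  refine ⟨Finset.univ.sup k₀, fun L _ _ _ r b k hb hbne => ?_⟩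
  have hdL : 0 < (F.map (algebraMap K L)).natDegree := by
    rw [hF1.natDegree_map, hdeg]
    exact two_pos
  have hmL : (F.map (algebraMap K L)).Monic := hF1.map _
  have hFL : ∀ i, IsIntegral ℤ ((F.map (algebraMap K L)).coeff i) := fun i => by
    rw [coeff_map]
    exact (hF i).map ((algebraMap K L).toIntAlgHom)
  obtain ⟨s⟩ : Nonempty (L →+* ℂ) := inferInstance
  have hall := fun σ : K →+* ℂ => hk₀ σ L r b k (fun i => ⟨(Finset.le_sup (Finset.mem_univ σ)).trans (hb i).1,
    (hb i).2.2⟩) hbne (-algebraMap K L (F.coeff 1) - b 0) rfl
  obtain ⟨h1, h2, ⟨N, hN, hSp⟩, h3, -⟩ := hall (s.comp (algebraMap K L))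
  refine ⟨isDomain_PRing hdL, fun s => Pool.Agent.N76.EC.smooth_of_squarefree
    (Pool.Agent.N76.EC.squarefree_map hsq) s, _, h1, h2, ?_, fun σ => (hall σ).2.2.2.2⟩
  intro M _ _ _
  obtain ⟨f, hf, hun⟩ := Pool.Agent.N76.EC.exists_lift_unramified hmL hdL hFL s hN (fun i => (hSp i).1) M
  exact ⟨f, hf, hun, h3 M f hf⟩

end Pool.Agent.Results.MP_15b3df_nt.AllSpecialPoints
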