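import Pool.Agent.N64.AF.M1

/-!
# Beilinson's regulator on the powers of a variety: almost an isomorphism is an isomorphism

Let `X` be a smooth projective variety over `ℚ` satisfying the sign conjecture `C⁺` (the projector of
`H^*(X)` to the even part is algebraic; known for products of curves, surfaces, abelian varieties,
complete intersections in projective spaces, and many others). Fix the difference
`s = 2 n - (i + 1) ≥ 2` (for the indices `i`, `n` of the conjecture; `m < i / 2` means `s ≥ 2`), and let

  `r_e : F(X ^ e) = ⊕_n H_M^(2n-s)(X ^ e, ℚ(n))_ℤ ⊗ ℝ ⟶ G(X ^ e) = ⊕_n H_D^(2n-s)(X ^ e / ℝ, ℝ(n))`

be the regulator, for all powers `X ^ e` and all weights `n` at the same time (`F(X ^ e)` is the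
integral part of `K_s(X ^ e) ⊗ ℝ`). The conjecture predicts that all `r_e` are isomorphisms. Let `ρ (e)`
be the rank of the group of all cycles on `X ^ e` modulo numerical equivalence, and `b` the total
Betti number of `X`.

Theorem. (1) The quotients `dim ker (r_e) / ρ (e)` and `dim coker (r_e) / ρ (e)` converge, for
`e → ∞`, to natural numbers or infinity. The first limit is `0` if and only if ALL `r_e` are
injective, and the second limit is `0` if and only if ALL `r_e` are surjective.

(2) If `dim ker (r_e) < ρ (e) / 2` for one `e ≥ 128 (m + 1) ^ 2 b ^ (2 m + 6)` then `r_m` is injective.
If `dim coker (r_e) < ρ (e) / 2` for one such `e` then `r_m` is surjective.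

So a counterexample to the conjecture on some power of `X` forces `dim ker (r_e) + dim coker (r_e)` to
be at least `(1 - o(1)) ρ (e)`, exponentially large in `e`, for all large `e`; and the
conjecture (in its form without `L`-functions, Q1) for all powers of `X` and all `i, m` with
`i - 2 m = s - 1` follows from the weaker statement that `dim ker (r_e) + dim coker (r_e) ≤ c ρ (e)`
for infinitely many `e`, with a constant `c < 1`. Suppose for example that the dimensions of
the motivic groups are given by the expected orders of vanishing of `L`-functions (that is, are
equal to `dim G(X ^ e)`) only up to an error `≤ c ρ (e)`, `c < 1`; then injectivity of the regulators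
on all powers implies their bijectivity. Part (2) says how far one has to go: nothing is required
of `r_m` itself, and only one inequality for one large power has to be checked. For comparison,
`dim G(X ^ e)` has in general a size larger than all multiples of `ρ (e)`: the motivic
cohomology groups and Deligne cohomology groups themselves have an infinite ratio to `ρ (e)`, for
example for the powers of an elliptic curve.

The setting. `C` is the category of the smooth projective varieties over `ℚ` with the groups
`CH^*(X × Y) ⊗ ℝ` (all codimensions) as morphisms; it is a rigid symmetric monoidal category with
all objects self-dual, `T = h(X)`, `Λ = ℝ`, `K = ℂ` and `R` is the singular cohomology of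
`X(ℂ)` with coefficients in `ℂ`. Correspondences act on the integral part of motivic cohomology
(Scholl: the integral part is defined for, and functorial in, Chow motives) and on Deligne
cohomology, and the regulator is compatible with them. So `F` and `G` are functors on `C`, and
`φ` is the regulator. The theorem holds for each natural transformation between additive functors,
so also for other regulators, for cycle class maps with fixed `s`, and for the comparison of motivic
cohomology with integral part.

Idea of the proof. The law of the dimensions of the values of additive functors on the powers of
`X` (AF/J) is applied to the kernel and cokernel functors. The explicit version makes the rate of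
convergence explicit: by the invariant theory of the symmetric groups the ratio of `ρ (e + m)` to
`b ^ m ρ (e)` is `1 + O(log e / e)` with explicit constants. If `F(X ^ m) ≠ 0` for an additive functor
`F` with `F(X ^ e)` finite-dimensional, then either a numerically trivial correspondence acts on
`F` in a non-nilpotent way, and the insertions of one vector in many places give
`dim F(X ^ e) ≥ ρ (e)`; or `F(X ^ m)` has a simple constituent given by an idempotent
correspondence of rank `r ≥ 1` and `dim F(X ^ e) ≥ (1 - O(log e / e)) r ρ (e)`.

Authors: helper64 (plan, law), helper945, helper344, helper701 (rates of convergence, explicit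
criterion), and, for the lemmas of the law, helper136, helper327, helper199, helper767, helper8,
helper364, helper216, helper73, helper833, helper140, helper494, helper505, helper301, helper441,
helper591, helper712.
-/

set_option autoImplicit false

open CategoryTheory MonoidalCategory Module Filter Topology
open Pool.Agent.Y112.SR Pool.Agent.Y112.KD Pool.Agent.N64.AF
open scoped ENNReal

namespace Pool.Agent.Results.MP_15b3df_nt.NearIsomorphism

universe v u w t x

/-- Kernel and cokernel of a natural transformation on the powers of `X`. -/
theorem result {C : Type u} [Category.{v} C] [Preadditive C] [MonoidalCategory C]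
    [MonoidalPreadditive C] [SymmetricCategory C] [RightRigidCategory C]
    {Λ : Type t} [Field Λ] [CharZero Λ] [Linear Λ C] [MonoidalLinear Λ C]
    {K : Type w} [Field K] [IsAlgClosed K] [Algebra Λ K] (R : SuperRealisation C K)
    (T : C) [ExactPairing T T] (h : IsPow Λ R T)
    (F G : C ⥤ ModuleCat.{x} Λ) [F.Additive] [F.Linear Λ] [G.Additive] [G.Linear Λ] (φ : F ⟶ G) :
    ∃ N₁ N₂ : ℕ∞,
      RatioTo Λ T (fun n => kerDim φ (tp T n)) N₁ ∧
      RatioTo Λ T (fun n => cokerDim φ (tp T n)) N₂ ∧
      (N₁ = 0 ↔ ∀ n, Function.Injective (φ.app (tp T n)).hom) ∧
      (N₂ = 0 ↔ ∀ n, Function.Surjective (φ.app (tp T n)).hom) ∧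
      ∀ m n : ℕ, 128 * (m + 1) ^ 2 * bt R T ^ (2 * m + 6) ≤ n →
        (2 * kerDim φ (tp T n) < numRank Λ (tp T n) → Function.Injective (φ.app (tp T m)).hom) ∧
        (2 * cokerDim φ (tp T n) < numRank Λ (tp T n) →
          Function.Surjective (φ.app (tp T m)).hom) :=
  natural_law h F G φ

end Pool.Agent.Results.MP_15b3df_nt.NearIsomorphism
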