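import Pool.Agent.N76.SR.All
import Pool.Agent.N76.LP.All

set_option autoImplicit false

/-!
Beilinson's conjecture (`i = 1`, `m = 0`, `n = 2`) for hyperelliptic curves over number fields: *surjectivity of the regulator onto
the full Deligne cohomology at any number of complex places*, after a finite extension of the number field.

Let `C : y² = D(x)` be a hyperelliptic curve of genus `g` over a number field `K` for which the difference of the two
points at infinity is torsion, with a solution of the Pell equation `P² - D Q² = 1` such that `2 P` is monic with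
integral coefficients (every monic polynomial `F = 2 P` with integral coefficients and `F ² - 4` not a square occurs,
`C` is then the normalisation of `z + 1/z = F(x)`, `z = P + Q y`). For an embedding `τ` of `K` in `ℂ` let `k_τ` be the
number of the critical points `β` of `P` at `τ` such that `P(β)` is real and `|P(β)| > 1` (of the zeros of
`r = P' / Q`); one has `k_τ ≤ g`. At a complex place the Deligne cohomology of `C` has dimension `2 g`. We prove that for
any embeddings `σ_1, ..., σ_m` there are, after a finite extension `L` of `K`, embeddings `s_a` of `L` above the `σ_a` such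
that the regulators of the unramified symbols `{P + Q y, (x - b) / (x - b')}` of the special points over `L` span a space
of codimension at most `∑ k_{σ_a}` in the sum of the Deligne cohomology groups at the places `s_1, ..., s_m`. In
particular the regulator on unramified `K_2` is surjective onto this sum, of dimension `2 g m`, if `P` has no real
critical values outside of `[-1, 1]` at the `σ_a`.

The dimension bound at one place, for given loops, is the argument of the starting result
`MP_b2b689_ag.PellHyperelliptic` (curves over `ℂ`); new are the number fields (unramified symbols at all places, special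
points over a number field), the independence of any number of places, and the existence of the loops: `2 g` loops
over each embedding whose periods are linearly independent over `ℝ` (project `LP`: a differential of the first kind
whose real periods vanish is zero, by the maximum principle for its potential).

The parts of the project were proved by helpers 34, 55, 82, 123, 234, 383, 407, 432, 568, 700 (`SR`) and 11, 42, 441, 459,
531, 543, 559, 570, 595, 607, 678, 698, 701, 887 (`LP`).
-/

namespace Pool.Agent.Results.MP_15b3df_nt.SurjectiveRegulators

open Polynomial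

open Pool.Agent.Y94.R

open Pool.Agent.N76.SR (UnramifiedSymbols IndependentRegulators)

open scoped Classical in
/-- Let `K` be a number field, `D` a squarefree polynomial of degree `2 g + 2` over `K`, and `P² - D Q² = 1`, `P' = r Q`,
where `2 P` is monic, not constant and has integral coefficients. For an embedding `τ` of `K` in `ℂ` let `k_τ` be the
number of the roots `β` of `r` at `τ`, counted with multiplicities, such that `P(β)` is real and `|P(β)| > 1`. Then
`k_τ ≤ g`, and there are `2 g` loops `γ_{τ,l} = (x_{τ,l}, y_{τ,l})` in the complex points of the curve `y² = D(x)` over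
each `τ`, with `y_{τ,l} ≠ 0`, whose period vectors `(∫ x^j dx / y)_{j < g}` are linearly independent over `ℝ` (that is,
the loops are a basis of the first homology of the complete curve over `τ` with rational coefficients), such that the
following holds for all `m ≥ 1`, *any* embeddings `σ_1, ..., σ_m` of `K` in `ℂ`, repetitions allowed, and all `p ≥ 2`. Let
`R = 2 g m - ∑ k_{σ_a}`; so `R ≥ g m`.

There is an `N₀` with the following properties. Let `N ≥ N₀` be prime to `p` and to the discriminant of `K`, and let `L`
be a number field over `K` which contains all roots `b` of the polynomial `C_N(2 P(x)) - 2`, that is, all `b` with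
`2 P(b) = ζ + 1/ζ`, `ζ ^ N = 1` (every number field over `K` has a finite extension with this property). The coordinate
ring of `C` over `L` is a domain, the complex points of `C` over all embeddings of `L` are smooth, and for every
embedding `s_1` of `L` above `σ_1` there are embeddings `s_2, ..., s_m` of `L` above `σ_2, ..., σ_m` and roots
`b_0, ..., b_R`, such that the symbols `{P + Q y, (x - b_i) / (x - b_j)}` are unramified at all discrete valuations of
the function field of `C`, and the `R` vectors of the regulators of the symbols `{P + Q y, (x - b_i) / (x - b_0)}` on all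
the `2 g m` loops `γ_{σ_a,l}`, in the complex points over `s_a`, are linearly independent over `ℝ`. -/
theorem result.{u, v, w} (g : ℕ) (K : Type u) [Field K] [NumberField K] (D P Q r : K[X])
    (hD : Squarefree D) (hdeg : D.natDegree = 2 * g + 2) (hPQ : P ^ 2 - D * Q ^ 2 = 1) (hP : 0 < P.natDegree)
    (hr : derivative P = r * Q) (hmon : (C 2 * P).Monic) (hint : ∀ i, IsIntegral ℤ ((C 2 * P).coeff i)) :
    (∀ τ : K →+* ℂ, Multiset.card ((r.map τ).roots.filter fun β =>
      ((P.map τ).eval β).im = 0 ∧ 1 < |((P.map τ).eval β).re|) ≤ g) ∧
    ∃ γ : ∀ τ : K →+* ℂ, Fin (2 * g) → Lp (D.map τ),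
      (∀ τ, LinearIndependent ℝ fun (l : Fin (2 * g)) (j : Fin g) =>
        ∫ t in (0 : ℝ)..1, (γ τ l).x t ^ (j : ℕ) * deriv (γ τ l).x t / (γ τ l).y t) ∧
      ∀ (m R : ℕ) (hm : 0 < m) (σ : Fin m → (K →+* ℂ)),
      R + ∑ a, Multiset.card ((r.map (σ a)).roots.filter fun β =>
        ((P.map (σ a)).eval β).im = 0 ∧ 1 < |((P.map (σ a)).eval β).re|) = 2 * g * m →
      ∀ p : ℕ, 2 ≤ p →
      ∃ N₀ : ℕ, ∀ N : ℕ, N₀ ≤ N → N.Coprime p → N.Coprime (NumberField.discr K).natAbs →
      ∀ (L : Type v) [Field L] [NumberField L] [Algebra K L],
      ((Chebyshev.C L N).comp (C 2 * P.map (algebraMap K L)) - C 2).Splits →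
      IsDomain (HRing (D.map (algebraMap K L))) ∧
      (∀ (s : L →+* ℂ) (x y : ℂ), y ^ 2 = (D.map (algebraMap K L)).eval₂ s x →
        2 * y ≠ 0 ∨ (derivative (D.map (algebraMap K L))).eval₂ s x ≠ 0) ∧
      ∀ s₁ : L →+* ℂ, s₁.comp (algebraMap K L) = σ ⟨0, hm⟩ →
      ∃ (hPQL : (P.map (algebraMap K L)) ^ 2 - D.map (algebraMap K L) * (Q.map (algebraMap K L)) ^ 2 = 1)
        (s : Fin m → (L →+* ℂ)) (b : Fin (R + 1) → L),
        s ⟨0, hm⟩ = s₁ ∧
        (∀ a, (s a).comp (algebraMap K L) = σ a) ∧
        (∀ i, (Chebyshev.C L N).eval ((C 2 * P.map (algebraMap K L)).eval (b i)) = 2) ∧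
        UnramifiedSymbols.{v, w} hPQL b ∧
        IndependentRegulators hPQL s (fun a l => (γ (σ a) l).x) (fun a l => (γ (σ a) l).y) b := by
  have hr0 : r ≠ 0 := by
    rintro rfl
    rw [zero_mul, Polynomial.derivative_eq_zero] at hr
    omega
  have hpell : ∀ τ : K →+* ℂ, Pell (D.map τ) (P.map τ) (Q.map τ) (r.map τ) := fun τ =>
    ⟨by rw [← Polynomial.map_pow, ← Polynomial.map_pow, ← Polynomial.map_mul, ← Polynomial.map_sub, hPQ,
        Polynomial.map_one], by rw [derivative_map, hr, Polynomial.map_mul], by rwa [natDegree_map]⟩
  have hloops : ∀ τ : K →+* ℂ, _ := fun τ => Pool.Agent.N76.LP.exists_loops (g := g) (D := D.map τ) (P := P.map τ)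
    (r := r.map τ) ((PerfectField.separable_iff_squarefree.2 hD).map (f := τ)).squarefree
    (by rw [natDegree_map, hdeg]) (by rwa [natDegree_map]) ((Polynomial.map_ne_zero_iff τ.injective).2 hr0)
  refine ⟨fun τ => ?_, fun τ => (hloops τ).choose, fun τ => (hloops τ).choose_spec.1, fun m R hm σ hR p hp => ?_⟩
  · have h1 := (hpell τ).natDegree_r (g := g) (by rw [natDegree_map, hdeg])
    exact (Multiset.card_le_card (Multiset.filter_le _ _)).trans ((card_roots' _).trans h1.le)
  · exact Pool.Agent.N76.SR.all_ g m (2 * g) R hm K D P Q r hD hdeg hPQ hP hr hmon hint σ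
      (fun a => (hloops (σ a)).choose) (fun a => (hloops (σ a)).choose_spec.1)
      (fun a => (hloops (σ a)).choose_spec.2.1) (fun a => (hloops (σ a)).choose_spec.2.2)
      (by rw [hR]; ring) p hp

end Pool.Agent.Results.MP_15b3df_nt.SurjectiveRegulators
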