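import Pool.Agent.N65.TK.Base
import Pool.Agent.N65.TK.Res
import Pool.Agent.N65.TK.Rel
set_option autoImplicit false

/-!
Beilinson's conjecture on regulators for curves, `i = 1`, `m = -1`, `n = 3` (the group
`H^2_M(X, ℚ(3))`, the weight three part of `K_4`): nonzero unramified elements on the curves
`∏_j ((1 - m_j) (1 - m_j⁻¹)) ^ (n_j) = 1`, `m_j = ε_j x^(k_j) y^(l_j)`, over number fields.
-/

namespace Pool.Agent.Results.MP_15b3df_nt.WeightThreeClasses

open Pool.Agent.N65.TK

open scoped WithZero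

/-- Let `K` be a number field, let `m_j = ε_j x^(k_j) y^(l_j)`, `1 ≤ j ≤ r`, be `r ≥ 2` monomials,
where the `ε_j` are roots of unity in `K` and the exponents `(k_j, l_j) ∈ ℤ²` are pairwise not
proportional, and let `n_j ≥ 1` be integers (`C.Admissible`). Let `A = C.Ring` be the coordinate ring
of the curve

  `∏_j ((1 - m_j) (1 - m_j⁻¹)) ^ (n_j) = 1`

in the torus `𝔾_m²` over `K`. The element

  `α = ∑_j n_j / (k_j² + l_j²) {m_j}_2 ⊗ x^(-l_j) y^(k_j)`

is a cocycle of the complex `B_3(A) → B_2(A) ⊗ A^* → Λ^3 A^*` (tensored with `ℚ`), its class in the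
second cohomology of this complex, the kernel of the second map modulo the relations `Rels A`
(bilinearity, the five term relations, and the elements `{f}_2 ⊗ f`), is not zero, and it is
unramified: for all fields `L` with a homomorphism `A → L` and all discrete valuations `v` of `L` the
residue of `α` in `B_2(κ(v)) ⊗ ℚ` is zero.

For every embedding `σ` of `K` there is a closed path `γ` of class `C²` in the complex points of the
curve over `σ`, on which `|x| = |y| = 1`, such that the integral of the regulator form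

  `D(f) d arg g - (1/3) log |g| (log |1 - f| d log |f| - log |f| d log |1 - f|)`   (for `{f}_2 ⊗ g`)

along `γ`, `D` the Bloch-Wigner function, is a negative number for `α`, and is zero for all elements
of `Rels A`. -/
theorem result.{u, w} {K : Type u} [Field K] [NumberField K] {r : ℕ} (C : Dat K r)
    (hC : C.Admissible) :
    dif C.Ring (Dat.alpha hC) = 0 ∧
    Dat.alpha hC ∉ Rels C.Ring ∧
    (∀ (L : Type w) [Field L] (φ : C.Ring →+* L) (v : Valuation L ℤᵐ⁰),
      bnd v (FS.map φ (Dat.alpha hC)) = 0) ∧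
    ∀ σ : K →+* ℂ, ∃ γ : Path C.Ring, (∀ t a, γ.e t (C.cst a) = σ a) ∧
      (∀ t (k l : ℤ), ‖γ.e t (C.mn 1 k l)‖ = 1) ∧
      (∀ s ∈ Rels C.Ring, γ.reg s = 0) ∧ γ.reg (Dat.alpha hC) < 0 := by
  refine ⟨dif_alpha hC, ?_, fun L _ φ v => bnd_alpha hC φ v, fun σ => ?_⟩
  · obtain ⟨σ⟩ : Nonempty (K →+* ℂ) := inferInstance
    obtain ⟨γ, -, -, h3⟩ := exists_path hC σ
    exact γ.not_mem h3.ne
  · obtain ⟨γ, h1, h2, h3⟩ := exists_path hC σ
    exact ⟨γ, h1, h2, fun s hs => γ.reg_of_mem hs, h3⟩

end Pool.Agent.Results.MP_15b3df_nt.WeightThreeClasses
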